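import Pool.Agent.H8.TD.Targets

/-!
# Zariski dense orbits in dimension three, row HRL: heights of algebraically dependent numbers
-/

set_option autoImplicit false

open MvPolynomial
open Pool.Agent.H12.ZD (pmap v O Res DenseOrbit NoInv)
open Pool.Agent.H18.HIT
open Pool.Agent.H8.ZA (HFam Const NA sz)
open Pool.Agent.H8.TD

namespace Pool.Agent.H42.TD

namespace HRL

lemma sum_le (w : AbsoluteValue Qb ℝ) (κ : ℝ) (n : ℕ) (f : ℕ → Qb) (M : ℝ) (hM : 0 ≤ M)
    (h : (NA w ∧ 1 ≤ κ) ∨ (n : ℝ) ≤ κ) (hf : ∀ j, j < n → w (f j) ≤ M) :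
    w (∑ j ∈ Finset.range n, f j) ≤ κ * M := by
  rcases h with ⟨h1, h2⟩ | h
  · have h3 : ∀ s ≤ n, w (∑ j ∈ Finset.range s, f j) ≤ M := by
      intro s
      induction s with
      | zero =>
        intro _
        rw [Finset.sum_range_zero, map_zero]
        exact hM
      | succ s ih =>
        intro hs
        rw [Finset.sum_range_succ]
        exact (h1 _ _).trans (max_le (ih (by omega)) (hf s (by omega)))
    calc w (∑ j ∈ Finset.range n, f j) ≤ M := h3 n le_rfl
      _ = 1 * M := (one_mul M).symm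
      _ ≤ κ * M := mul_le_mul_of_nonneg_right h2 hM
  · have h3 : ∀ s ≤ n, w (∑ j ∈ Finset.range s, f j) ≤ s * M := by
      intro s
      induction s with
      | zero =>
        intro _
        rw [Finset.sum_range_zero, map_zero]
        simp
      | succ s ih =>
        intro hs
        rw [Finset.sum_range_succ]
        have h4 := w.add_le (∑ j ∈ Finset.range s, f j) (f s)
        have h5 := ih (by omega)
        have h6 := hf s (by omega)
        push_cast
        linarith
    exact (h3 n le_rfl).trans (mul_le_mul_of_nonneg_right h hM)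

variable {K : IntermediateField ℚ Qb}

open Classical in
/-- a constant at the archimedean places -/
noncomputable def ac (F : HFam K) (c : ℝ) (i : F.ι) : ℝ := if i ∈ F.arch then c else 1

lemma ac_const (F : HFam K) (c : ℝ) (hc : 1 ≤ c) : Const F (ac F c) := by
  classical
  refine ⟨fun i => ?_, F.arch.finite_toSet.subset fun i hi => ?_⟩
  · unfold ac
    split_ifs
    · exact hc
    · exact le_rfl
  · by_contra h
    apply hi
    unfold ac
    rw [if_neg (fun h' => h (Finset.mem_coe.2 h'))]

lemma ac_or (F : HFam K) (n : ℕ) (c : ℝ) (i : F.ι) (h : (n : ℝ) ≤ c) :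
    (NA (F.abv i) ∧ 1 ≤ ac F c i) ∨ (n : ℝ) ≤ ac F c i := by
  classical
  by_cases hi : i ∈ F.arch
  · right
    unfold ac
    rwa [if_pos hi]
  · left
    refine ⟨F.na i hi, ?_⟩
    unfold ac
    rw [if_neg hi]

/-- the size of a coefficient -/
noncomputable def mo (F : HFam K) (a : Qb) (i : F.ι) : ℝ := max 1 (F.abv i a)

lemma mo_const (F : HFam K) (a : Qb) : Const F (mo F a) := by
  refine ⟨fun i => le_max_left _ _, ?_⟩
  by_cases ha : a = 0
  · have : {i | mo F a i ≠ 1} = ∅ := by
      ext i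
      simp [mo, ha]
    rw [this]
    exact Set.finite_empty
  · refine (F.finite a ha).subset fun i hi h1 => hi ?_
    unfold mo
    rw [h1, max_self]

lemma prod_const (F : HFam K) (s : Finset ℕ) (f : ℕ → F.ι → ℝ) (h : ∀ j ∈ s, Const F (f j)) :
    Const F (fun i => ∏ j ∈ s, f j i) := by
  classical
  induction s using Finset.induction_on with
  | empty =>
    simp only [Finset.prod_empty]
    exact Const.one F
  | insert a s ha ih =>
    simp only [Finset.prod_insert ha]
    exact (h a (Finset.mem_insert_self _ _)).mul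
      (ih fun j hj => h j (Finset.mem_insert_of_mem hj))

lemma le_prod (F : HFam K) (s : Finset ℕ) (f : ℕ → F.ι → ℝ) (h : ∀ j ∈ s, Const F (f j))
    (j : ℕ) (hj : j ∈ s) (i : F.ι) : f j i ≤ ∏ j ∈ s, f j i := by
  classical
  rw [← Finset.mul_prod_erase s (fun j => f j i) hj]
  have h1 : (1 : ℝ) ≤ ∏ j ∈ s.erase j, f j i :=
    (prod_const F (s.erase j) f fun j hj => h j (Finset.mem_of_mem_erase hj)).one_le i
  exact le_mul_of_one_le_right ((h j hj).pos i).le h1

end HRL

open HRL
open Pool.Agent.H8.ZA (ht_compare one_le_sz le_sz sz_le sz_pos)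

theorem pf_HRL : T_HRL := by
  classical
  intro G m K F hK hdeg hne
  set N := G.natDegree with hN
  -- the constants
  let B : F.ι → ℝ := fun i => ∏ j ∈ Finset.range (N + 1),
    (fun j i => ∏ u ∈ Finset.range (m + 1), mo F ((G.coeff j).coeff u) i) j i
  have hB1 : ∀ j, Const F (fun i => ∏ u ∈ Finset.range (m + 1), mo F ((G.coeff j).coeff u) i) :=
    fun j => prod_const F _ (fun u => mo F ((G.coeff j).coeff u)) fun u _ => mo_const F _
  have hB : Const F B :=
    prod_const F _ (fun j i => ∏ u ∈ Finset.range (m + 1), mo F ((G.coeff j).coeff u) i)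
      fun j _ => hB1 j
  have hBc : ∀ i j u, j < N + 1 → u < m + 1 → F.abv i ((G.coeff j).coeff u) ≤ B i := by
    intro i j u hj hu
    calc F.abv i ((G.coeff j).coeff u) ≤ mo F ((G.coeff j).coeff u) i := le_max_right _ _
      _ ≤ ∏ u ∈ Finset.range (m + 1), mo F ((G.coeff j).coeff u) i :=
        le_prod F _ (fun u => mo F ((G.coeff j).coeff u)) (fun u _ => mo_const F _) u
          (Finset.mem_range.2 hu) i
      _ ≤ B i := le_prod F _ (fun j i => ∏ u ∈ Finset.range (m + 1),
          mo F ((G.coeff j).coeff u) i) (fun j _ => hB1 j) j (Finset.mem_range.2 hj) i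
  let κ1 : F.ι → ℝ := ac F ((m + 1 : ℕ) : ℝ)
  let κ2 : F.ι → ℝ := ac F ((N + 1 : ℕ) : ℝ)
  have hκ1 : Const F κ1 := ac_const F _ (by push_cast; linarith [Nat.cast_nonneg (α := ℝ) m])
  have hκ2 : Const F κ2 := ac_const F _ (by push_cast; linarith [Nat.cast_nonneg (α := ℝ) N])
  let C : F.ι → ℝ := fun i => κ2 i * (κ1 i * B i)
  have hC : Const F C := hκ2.mul (hκ1.mul hB)
  refine ⟨∑ᶠ i, Real.log (C i), fun t φ ht hφ => ?_⟩
  -- the coefficients
  let c : ℕ → Qb := fun j => (G.coeff j).eval t
  have hcK : ∀ j, c j ∈ K := by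
    intro j
    show (G.coeff j).eval t ∈ K
    rw [Polynomial.eval_eq_sum_range]
    exact sum_mem fun u _ => mul_mem (hK j u) (pow_mem ht u)
  have hcb : ∀ i j, j < N + 1 → F.abv i (c j) ≤ κ1 i * (B i * sz (F.abv i) ![t, 0, 0] ^ m) := by
    intro i j hj
    have h1 : c j = ∑ u ∈ Finset.range (m + 1), (G.coeff j).coeff u * t ^ u := by
      show (G.coeff j).eval t = _
      exact Polynomial.eval_eq_sum_range' (Nat.lt_succ_of_le (hdeg j)) t
    rw [h1]
    have hs := one_le_sz (F.abv i) ![t, 0, 0]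
    refine sum_le _ _ _ _ _ (mul_nonneg (hB.pos i).le (pow_nonneg (by linarith) _))
      (ac_or F _ _ i le_rfl) fun u hu => ?_
    rw [map_mul, map_pow]
    have h2 : F.abv i t ≤ sz (F.abv i) ![t, 0, 0] := le_sz (F.abv i) ![t, 0, 0] 0
    have h3 : F.abv i t ^ u ≤ sz (F.abv i) ![t, 0, 0] ^ m :=
      (pow_le_pow_left₀ ((F.abv i).nonneg _) h2 u).trans
        (pow_le_pow_right₀ hs (by omega))
    exact mul_le_mul (hBc i j u hj hu) h3 (pow_nonneg ((F.abv i).nonneg _) _) (hB.pos i).le
  obtain ⟨j0, hj0⟩ := hne t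
  have hj0N : j0 ≤ N := by
    apply Polynomial.le_natDegree_of_ne_zero
    intro h
    rw [h, Polynomial.eval_zero] at hj0
    exact hj0 rfl
  set J := Nat.findGreatest (fun j => c j ≠ 0) N with hJ
  have hJ0 : c J ≠ 0 := Nat.findGreatest_spec (P := fun j => c j ≠ 0) hj0N hj0
  have hJN : J ≤ N := Nat.findGreatest_le N
  have hJg : ∀ j, J < j → j ≤ N → c j = 0 := by
    intro j h1 h2
    have := Nat.findGreatest_is_greatest (P := fun j => c j ≠ 0) h1 h2
    simpa using this
  have hrel : c J * φ ^ J = - ∑ j ∈ Finset.range J, c j * φ ^ j := by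
    rw [Polynomial.eval_map, Polynomial.eval₂_eq_sum_range] at hφ
    have h1 : ∑ j ∈ Finset.range (J + 1), c j * φ ^ j = 0 := by
      rw [← hφ]
      apply Finset.sum_subset (Finset.range_mono (by omega))
      intro j hj hj'
      rw [Finset.mem_range] at hj hj'
      have h2 : c j = 0 := hJg j (by omega) (by omega)
      show c j * φ ^ j = 0
      rw [h2, zero_mul]
    rw [Finset.sum_range_succ] at h1
    linear_combination h1
  have hJ1 : 1 ≤ J := by
    by_contra h
    have h1 : J = 0 := by omega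
    rw [h1] at hrel
    rw [h1] at hJ0
    simp at hrel
    exact hJ0 hrel
  -- the local inequality
  have key : ∀ i, sz (F.abv i) ![φ, 0, 0] * F.abv i (c J) ≤
      C i * sz (F.abv i) ![t, 0, 0] ^ m := by
    intro i
    have hcp : 0 < F.abv i (c J) := (F.abv i).pos hJ0
    have hb := hcb i J (by omega)
    have hst : 0 < sz (F.abv i) ![t, 0, 0] := sz_pos _ _
    have hQ : 0 ≤ κ1 i * (B i * sz (F.abv i) ![t, 0, 0] ^ m) :=
      mul_nonneg (hκ1.pos i).le (mul_nonneg (hB.pos i).le (pow_nonneg hst.le _))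
    have hQ2 : C i * sz (F.abv i) ![t, 0, 0] ^ m =
        κ2 i * (κ1 i * (B i * sz (F.abv i) ![t, 0, 0] ^ m)) := by
      show κ2 i * (κ1 i * B i) * _ = _
      ring
    rw [hQ2]
    by_cases hle : F.abv i φ ≤ 1
    · have h1 : sz (F.abv i) ![φ, 0, 0] ≤ 1 := by
        apply sz_le le_rfl
        intro j
        fin_cases j
        · exact hle
        · simp
        · simp
      calc sz (F.abv i) ![φ, 0, 0] * F.abv i (c J) ≤ 1 * F.abv i (c J) :=
            mul_le_mul_of_nonneg_right h1 hcp.le
        _ = F.abv i (c J) := one_mul _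
        _ ≤ κ1 i * (B i * sz (F.abv i) ![t, 0, 0] ^ m) := hb
        _ ≤ κ2 i * (κ1 i * (B i * sz (F.abv i) ![t, 0, 0] ^ m)) :=
            le_mul_of_one_le_left hQ (hκ2.one_le i)
    · have hgt : 1 < F.abv i φ := lt_of_not_ge hle
      have h1 : sz (F.abv i) ![φ, 0, 0] ≤ F.abv i φ := by
        apply sz_le hgt.le
        intro j
        fin_cases j
        · exact le_rfl
        · simp
        · simp
      have h2 : F.abv i (c J) * F.abv i φ ^ J ≤
          κ2 i * (κ1 i * (B i * sz (F.abv i) ![t, 0, 0] ^ m) * F.abv i φ ^ (J - 1)) := by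
        rw [← map_pow, ← map_mul, hrel, (F.abv i).map_neg]
        refine sum_le _ _ _ _ _ (mul_nonneg hQ (pow_nonneg (by linarith) _))
          (ac_or F _ _ i (by exact_mod_cast (by omega : J ≤ N + 1))) fun j hj => ?_
        rw [map_mul, map_pow]
        refine mul_le_mul (hcb i j (by omega)) (pow_le_pow_right₀ hgt.le (by omega))
          (pow_nonneg (by linarith) _) hQ
      have h3 : F.abv i φ ^ J = F.abv i φ * F.abv i φ ^ (J - 1) := by
        rw [← pow_succ']
        congr 1
        omega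
      have hpp : 0 < F.abv i φ ^ (J - 1) := pow_pos (by linarith) _
      have h4 : F.abv i φ * F.abv i (c J) ≤
          κ2 i * (κ1 i * (B i * sz (F.abv i) ![t, 0, 0] ^ m)) := by
        rw [h3] at h2
        have h5 : (F.abv i φ * F.abv i (c J)) * F.abv i φ ^ (J - 1) ≤
            (κ2 i * (κ1 i * (B i * sz (F.abv i) ![t, 0, 0] ^ m))) * F.abv i φ ^ (J - 1) := by
          linarith
        exact le_of_mul_le_mul_right h5 hpp
      exact (mul_le_mul_of_nonneg_right h1 hcp.le).trans h4
  -- the end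
  have hfin := ht_compare F (x := ![φ, 0, 0]) (y := ![t, 0, 0]) (z := ![t, 0, 0]) (n := 1)
    (a := m) (b := 0) (c J) (hcK J) hJ0 C hC (fun i => by
      have hcp : 0 < F.abv i (c J) := (F.abv i).pos hJ0
      have h1 : Real.log (sz (F.abv i) ![φ, 0, 0] * F.abv i (c J)) ≤
          Real.log (C i * sz (F.abv i) ![t, 0, 0] ^ m) :=
        Real.log_le_log (mul_pos (sz_pos _ _) hcp) (key i)
      rw [Real.log_mul (sz_pos _ _).ne' hcp.ne', Real.log_mul (hC.pos i).ne'
        (pow_pos (sz_pos _ _) _).ne', Real.log_pow] at h1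
      linarith)
  linarith

end Pool.Agent.H42.TD
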