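import Pool.Agent.H8.TD.Targets

/-!
# Zariski dense orbits in dimension three, row UPE: the number of preimages under the iterates of
a homogeneous map
-/

set_option autoImplicit false

open MvPolynomial
open Pool.Agent.H12.ZD (pmap v O Res DenseOrbit NoInv)
open Pool.Agent.H18.HIT
open Pool.Agent.H8.ZA (HFam Const NA sz)
open Pool.Agent.H8.TD

namespace Pool.Agent.H42.TD

namespace UPE

/-- representatives -/
lemma reps {V : Type} (r : V → V → Prop) (Z0 : Finset V) : ∃ Z ⊆ Z0,
    (∀ x ∈ Z, ∀ x' ∈ Z, r x x' → x' = x) ∧ ∀ z ∈ Z0, ∃ z1 ∈ Z, z = z1 ∨ r z z1 ∨ r z1 z := by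
  classical
  induction Z0 using Finset.induction_on with
  | empty => exact ⟨∅, Finset.Subset.refl _, by simp, by simp⟩
  | insert a s ha ih =>
    obtain ⟨Z, h1, h2, h3⟩ := ih
    by_cases h : ∃ z1 ∈ Z, a = z1 ∨ r a z1 ∨ r z1 a
    · refine ⟨Z, h1.trans (Finset.subset_insert _ _), h2, fun z hz => ?_⟩
      rcases Finset.mem_insert.1 hz with rfl | hz
      · exact h
      · exact h3 z hz
    · refine ⟨insert a Z, Finset.insert_subset_insert _ h1, fun x hx x' hx' hr => ?_,
        fun z hz => ?_⟩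
      · rcases Finset.mem_insert.1 hx with h4 | h4
        · rcases Finset.mem_insert.1 hx' with h5 | h5
          · rw [h4, h5]
          · rw [h4] at hr
            exact absurd ⟨x', h5, Or.inr (Or.inl hr)⟩ h
        · rcases Finset.mem_insert.1 hx' with h5 | h5
          · rw [h5] at hr
            exact absurd ⟨x, h4, Or.inr (Or.inr hr)⟩ h
          · exact h2 x h4 x' h5 hr
      · rcases Finset.mem_insert.1 hz with rfl | hz
        · exact ⟨z, Finset.mem_insert_self _ _, Or.inl rfl⟩
        · obtain ⟨z1, hz1, h4⟩ := h3 z hz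
          exact ⟨z1, Finset.mem_insert_of_mem hz1, h4⟩

section

variable {N : ℕ} {k : Type} [Field k]

lemma eval_smul {f : Po N k} {m : ℕ} (hf : f.IsHomogeneous m) (c : k)
    (x : Fin N → k) : eval (c • x) f = c ^ m * eval x f := by
  rw [eval_eq, eval_eq, Finset.mul_sum]
  refine Finset.sum_congr rfl fun d hd => ?_
  have h1 : ∏ i ∈ d.support, (c • x) i ^ d i = c ^ m * ∏ i ∈ d.support, x i ^ d i := by
    have h2 : (∑ i ∈ d.support, d i) = m := by
      have := hf (mem_support_iff.1 hd)
      rw [← this, Finsupp.weight_apply, Finsupp.sum]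
      simp
    rw [← h2, ← Finset.prod_pow_eq_pow_sum, ← Finset.prod_mul_distrib]
    exact Finset.prod_congr rfl fun i _ => by rw [Pi.smul_apply, smul_eq_mul, mul_pow]
  rw [h1]
  ring

variable {F : Tup N k} {d : ℕ}

lemma pmap_smul (hF : ∀ i, (F i).IsHomogeneous d) (c : k) (x : Fin N → k) :
    pmap F (c • x) = c ^ d • pmap F x := by
  funext i
  exact eval_smul (hF i) c x

lemma iter_smul (hF : ∀ i, (F i).IsHomogeneous d) (n : ℕ) (c : k) (x : Fin N → k) :
    (pmap F)^[n] (c • x) = c ^ d ^ n • (pmap F)^[n] x := by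
  induction n with
  | zero => simp
  | succ n ih =>
    rw [Function.iterate_succ_apply', ih, pmap_smul hF, Function.iterate_succ_apply', ← pow_mul,
      pow_succ]

lemma pmap_zero (hF : ∀ i, (F i).IsHomogeneous d) (hd : 1 ≤ d) : pmap F 0 = 0 := by
  have h := pmap_smul hF 0 (0 : Fin N → k)
  rw [zero_smul, zero_pow (by omega), zero_smul] at h
  exact h

lemma inj_it (hF : Function.Injective (aeval F : Po N k →ₐ[k] Po N k)) (n : ℕ) :
    Function.Injective (aeval (it F n) : Po N k →ₐ[k] Po N k) := by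
  induction n with
  | zero =>
    intro a b hab
    have h1 : ∀ q : Po N k, aeval (it F 0) q = q := fun q => aeval_X_left_apply q
    rwa [h1, h1] at hab
  | succ n ih =>
    intro a b hab
    rw [aeval_it_succ, aeval_it_succ] at hab
    exact hF (ih hab)

/-- pairwise non-proportional -/
def NP (S : Finset (Fin N → k)) : Prop :=
  ∀ x ∈ S, ∀ x' ∈ S, ∀ t : k, (∀ i, x' i = t * x i) → x' = x

lemma np_reps (Z0 : Finset (Fin N → k)) : ∃ Z ⊆ Z0, NP Z ∧
    ∀ z ∈ Z0, ∃ z1 ∈ Z, ∃ t : k, z = t • z1 ∨ z1 = t • z := by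
  obtain ⟨Z, h1, h2, h3⟩ := reps (fun x x' : Fin N → k => ∃ t : k, ∀ i, x' i = t * x i) Z0
  refine ⟨Z, h1, fun x hx x' hx' t ht => h2 x hx x' hx' ⟨t, ht⟩, fun z hz => ?_⟩
  obtain ⟨z1, hz1, h4⟩ := h3 z hz
  rcases h4 with rfl | ⟨t, ht⟩ | ⟨t, ht⟩
  · exact ⟨z, hz1, 1, Or.inl (one_smul _ _).symm⟩
  · exact ⟨z1, hz1, t, Or.inr (funext ht)⟩
  · exact ⟨z1, hz1, t, Or.inl (funext ht)⟩

end

end UPE

open UPE

theorem pf_UPE (hCVE : T_CVE) (hELM : T_ELM) : T_UPE := by
  classical
  intro N k _ _ _ F d e n θ Φ Δ R hN hd hF hinj hbound hprim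
  obtain ⟨c, hc0, hc⟩ := hbound
  have hinf : Infinite k := IsAlgClosed.instInfinite
  have : NeZero N := ⟨by omega⟩
  -- nonzero vectors
  have hne : ∀ y : Fin N → k, eval y (X 0 : Po N k) ≠ 0 → y ≠ 0 := by
    intro y h1 h2
    apply h1
    rw [eval_X, h2]
    rfl
  -- the number of classes
  have step : ∀ n : ℕ, ∃ c : Po N k, c ≠ 0 ∧ ∀ y : Fin N → k, eval y c ≠ 0 →
      ∀ S : Finset (Fin N → k), (∀ x ∈ S, (pmap F)^[n] x = y) → NP S → S.card ≤ e ^ n := by
    intro n
    induction n with
    | zero =>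
      refine ⟨1, one_ne_zero, fun y _ S hS _ => ?_⟩
      rw [pow_zero, Finset.card_le_one]
      intro a ha b hb
      rw [← Function.iterate_zero_apply (pmap F) a, ← Function.iterate_zero_apply (pmap F) b,
        hS a ha, hS b hb]
    | succ n ih =>
      obtain ⟨cn, hcn0, hcn⟩ := ih
      obtain ⟨c', hc'0, hc'⟩ := hELM N k F hinj cn hcn0
      refine ⟨c * c' * X 0, mul_ne_zero (mul_ne_zero hc0 hc'0) (X_ne_zero 0),
        fun y hy S hS hSp => ?_⟩
      rw [map_mul, map_mul] at hy
      have hy1 := left_ne_zero_of_mul (left_ne_zero_of_mul hy)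
      have hy2 := right_ne_zero_of_mul (left_ne_zero_of_mul hy)
      have hy3 := hne y (right_ne_zero_of_mul hy)
      have hz0 : ∀ z, pmap F z = y → z ≠ 0 := by
        intro z hz h0
        rw [h0, pmap_zero hF hd] at hz
        exact hy3 hz.symm
      have hzc : ∀ z, pmap F z = y → eval z cn ≠ 0 := by
        intro z hz h0
        obtain ⟨q, hq⟩ := hc'
        have h1 := congrArg (eval z) hq
        rw [eval_aeval, hz, map_mul, h0, zero_mul] at h1
        exact hy2 h1
      have hSz : ∀ x ∈ S, pmap F ((pmap F)^[n] x) = y := by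
        intro x hx
        rw [← Function.iterate_succ_apply' (pmap F)]
        exact hS x hx
      obtain ⟨Z, hZs, hZp, hZr⟩ := np_reps (S.image fun x => (pmap F)^[n] x)
      have hZy : ∀ z ∈ Z, pmap F z = y := by
        intro z hz
        obtain ⟨x, hx, rfl⟩ := Finset.mem_image.1 (hZs hz)
        exact hSz x hx
      have hZcard : Z.card ≤ e := hc y hy1 Z hZy hZp
      -- the classes
      have hcls : ∀ z1 ∈ Z, (S.filter fun x => ∃ t : k, (pmap F)^[n] x = t • z1).card ≤ e ^ n := by
        intro z1 hz1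
        have hμ : ∀ x ∈ S.filter (fun x => ∃ t : k, (pmap F)^[n] x = t • z1), ∃ μ : k, μ ≠ 0 ∧
            (pmap F)^[n] (μ • x) = z1 := by
          intro x hx
          obtain ⟨hxS, t, ht⟩ := Finset.mem_filter.1 hx
          have ht0 : t ≠ 0 := by
            intro h0
            rw [h0, zero_smul] at ht
            exact hz0 _ (hSz x hxS) ht
          obtain ⟨μ, hμ⟩ := IsAlgClosed.exists_pow_nat_eq t⁻¹ (n := d ^ n) (pow_pos (by omega) _)
          refine ⟨μ, ?_, ?_⟩
          · intro h0
            rw [h0, zero_pow (pow_pos (by omega) _).ne'] at hμ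
            exact inv_ne_zero ht0 hμ.symm
          · rw [iter_smul hF, ht, hμ, smul_smul, inv_mul_cancel₀ ht0, one_smul]
        choose! μ hμ0 hμz using hμ
        have hinj2 : Set.InjOn (fun x => μ x • x)
            (S.filter (fun x => ∃ t : k, (pmap F)^[n] x = t • z1) : Finset (Fin N → k)) := by
          intro x hx x' hx' hxx
          have hx1 := Finset.mem_filter.1 (Finset.mem_coe.1 hx)
          have hx1' := Finset.mem_filter.1 (Finset.mem_coe.1 hx')
          have h0' := hμ0 x' (Finset.mem_coe.1 hx')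
          refine (hSp x hx1.1 x' hx1'.1 ((μ x')⁻¹ * μ x) fun i => ?_).symm
          have h1 := congrFun hxx i
          simp only [Pi.smul_apply, smul_eq_mul] at h1
          rw [mul_assoc, h1, ← mul_assoc, inv_mul_cancel₀ h0', one_mul]
        rw [← Finset.card_image_of_injOn hinj2]
        refine hcn z1 (hzc z1 (hZy z1 hz1)) _ ?_ ?_
        · intro w hw
          obtain ⟨x, hx, rfl⟩ := Finset.mem_image.1 hw
          exact hμz x hx
        · intro w hw w' hw' t ht
          obtain ⟨x, hx, rfl⟩ := Finset.mem_image.1 hw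
          obtain ⟨x', hx', rfl⟩ := Finset.mem_image.1 hw'
          have hx1 := Finset.mem_filter.1 hx
          have hx1' := Finset.mem_filter.1 hx'
          have h0' := hμ0 x' hx'
          have h2 : x' = x := by
            refine hSp x hx1.1 x' hx1'.1 ((μ x')⁻¹ * (t * μ x)) fun i => ?_
            have h1 := ht i
            simp only [Pi.smul_apply, smul_eq_mul] at h1
            rw [mul_assoc, mul_assoc, ← h1, ← mul_assoc, inv_mul_cancel₀ h0', one_mul]
          rw [h2]
      calc S.card ≤ (Z.biUnion fun z1 => S.filter fun x => ∃ t : k, (pmap F)^[n] x = t • z1).card := by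
            apply Finset.card_le_card
            intro x hx
            obtain ⟨z1, hz1, t, ht⟩ := hZr ((pmap F)^[n] x) (Finset.mem_image_of_mem _ hx)
            rw [Finset.mem_biUnion]
            refine ⟨z1, hz1, Finset.mem_filter.2 ⟨hx, ?_⟩⟩
            rcases ht with ht | ht
            · exact ⟨t, ht⟩
            · have ht0 : t ≠ 0 := by
                intro h0
                rw [h0, zero_smul] at ht
                exact hz0 z1 (hZy z1 hz1) ht
              exact ⟨t⁻¹, by rw [ht, smul_smul, inv_mul_cancel₀ ht0, one_smul]⟩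
        _ ≤ ∑ z1 ∈ Z, (S.filter fun x => ∃ t : k, (pmap F)^[n] x = t • z1).card :=
            Finset.card_biUnion_le
        _ ≤ ∑ z1 ∈ Z, e ^ n := Finset.sum_le_sum hcls
        _ = Z.card * e ^ n := by rw [Finset.sum_const, smul_eq_mul]
        _ ≤ e * e ^ n := Nat.mul_le_mul_right _ hZcard
        _ = e ^ (n + 1) := (pow_succ' e n).symm
  -- the end
  obtain ⟨cn, hcn0, hcn⟩ := step n
  obtain ⟨c2, hc20, hc2⟩ := hCVE N k (it F n) θ Φ Δ R (inj_it hinj n) hprim
  have hprod : cn * c2 * X 0 ≠ 0 := mul_ne_zero (mul_ne_zero hcn0 hc20) (X_ne_zero 0)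
  obtain ⟨y, hy⟩ : ∃ y : Fin N → k, eval y (cn * c2 * X 0) ≠ 0 := by
    by_contra hcon
    push Not at hcon
    exact hprod (MvPolynomial.funext fun x => by rw [hcon x, map_zero])
  rw [map_mul, map_mul] at hy
  have hy1 := left_ne_zero_of_mul (left_ne_zero_of_mul hy)
  have hy2 := right_ne_zero_of_mul (left_ne_zero_of_mul hy)
  have hy3 := hne y (right_ne_zero_of_mul hy)
  obtain ⟨S, hSc, hS⟩ := hc2 y hy2
  have hS' : ∀ x ∈ S, (pmap F)^[n] x = y := fun x hx => by rw [← pmap_it]; exact hS x hx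
  obtain ⟨Z, hZs, hZp, hZr⟩ := np_reps S
  have hZc := hcn y hy1 Z (fun x hx => hS' x (hZs hx)) hZp
  have hdn : 0 < d ^ n := pow_pos (by omega) _
  have hroot : ∀ (t : k) (x x' : Fin N → k), x ∈ S → x' ∈ S → x = t • x' → t ^ d ^ n = 1 := by
    intro t x x' hx hx' hxx
    have h1 := hS' x hx
    rw [hxx, iter_smul hF, hS' x' hx'] at h1
    obtain ⟨i, hi⟩ : ∃ i, y i ≠ 0 := by
      by_contra hcon
      push Not at hcon
      exact hy3 (funext hcon)
    have h2 := congrFun h1 i
    rw [Pi.smul_apply, smul_eq_mul] at h2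
    exact mul_right_cancel₀ hi (h2.trans (one_mul _).symm)
  let T : Finset k := (Polynomial.nthRoots (d ^ n) (1 : k)).toFinset
  have hT : ∀ t : k, t ^ d ^ n = 1 → t ∈ T := by
    intro t ht
    rw [Multiset.mem_toFinset, Polynomial.mem_nthRoots hdn]
    exact ht
  have hTc : T.card ≤ d ^ n :=
    (Multiset.toFinset_card_le _).trans (Polynomial.card_nthRoots _ _)
  rw [← hSc]
  calc S.card ≤ ((T ×ˢ Z).image fun p : k × (Fin N → k) => p.1 • p.2).card := by
        apply Finset.card_le_card
        intro x hx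
        obtain ⟨z1, hz1, t, ht⟩ := hZr x hx
        rw [Finset.mem_image]
        rcases ht with ht | ht
        · exact ⟨(t, z1), Finset.mem_product.2 ⟨hT t (hroot t x z1 hx (hZs hz1) ht), hz1⟩, ht.symm⟩
        · have h1 := hroot t z1 x (hZs hz1) hx ht
          have ht0 : t ≠ 0 := by
            intro h0
            rw [h0, zero_pow hdn.ne'] at h1
            exact zero_ne_one h1
          refine ⟨(t⁻¹, z1), Finset.mem_product.2 ⟨hT _ ?_, hz1⟩, ?_⟩
          · rw [inv_pow, h1, inv_one]
          · show t⁻¹ • z1 = x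
            rw [ht, smul_smul, inv_mul_cancel₀ ht0, one_smul]
    _ ≤ (T ×ˢ Z).card := Finset.card_image_le
    _ = T.card * Z.card := Finset.card_product _ _
    _ ≤ d ^ n * e ^ n := Nat.mul_le_mul hTc hZc

end Pool.Agent.H42.TD
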